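import Pool.Agent.TH215.NC.L1

/-!
Non-commutative crepant resolutions: the definition, and the localization of `End_R(M)`.
-/

set_option autoImplicit false

open TensorProduct CategoryTheory

namespace Pool.Agent.TH215.NC

open Pool.Agent.W506.Hilb Pool.Agent.TH215.TM Pool.Agent.TH182.NC

section defs

/-- The (left) global dimension of the ring `Λ` is at most `d`. -/
def GlDimLE (Λ : Type) [Ring Λ] (d : ℕ) : Prop :=
  ∀ N : ModuleCat.{0} Λ, HasProjectiveDimensionLT N (d + 1)

/-- `Λ = End_R(M)` is a non-commutative crepant resolution of `R`: `M` is a nonzero finitely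
generated reflexive `R`-module, `Λ` is a maximal Cohen-Macaulay `R`-module and for every prime
ideal `p` of `R` the global dimension of `Λ_p = R_p ⊗_R Λ` is the Krull dimension of `R_p`. -/
structure IsNCCR (R : Type) [CommRing R] (M : Type) [AddCommGroup M] [Module R M] : Prop where
  nontrivial : Nontrivial M
  finite : Module.Finite R M
  reflexive : Module.IsReflexive R M
  cm : IsCM R (Module.End R M)
  gldim : ∀ (p : Ideal R) [p.IsPrime] (d : ℕ),
    GlDimLE (Localization.AtPrime p ⊗[R] Module.End R M) d ↔
      ringKrullDim (Localization.AtPrime p) ≤ d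

end defs

/-- the localization of the endomorphism ring is the endomorphism ring of the localization -/
noncomputable def endLoc {R : Type} [CommRing R] [IsNoetherianRing R] (M : Type) [AddCommGroup M]
    [Module R M] [Module.Finite R M] (A : Type) [CommRing A] [Algebra R A] [Module.Flat R A] :
    A ⊗[R] Module.End R M ≃+* Module.End A (A ⊗[R] M) :=
  have : Module.FinitePresentation R M := Module.finitePresentation_of_finite R M
  RingEquiv.ofBijective (LinearMap.tensorProductEnd R A M).toRingHom (by
    have h := Module.FinitePresentation.isBaseChange_map R M M A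
    have h2 : ∀ x, LinearMap.tensorProductEnd R A M x = h.equiv x := by
      intro x
      induction x using TensorProduct.induction_on with
      | zero => simp
      | add x y hx hy => rw [map_add, map_add, hx, hy]
      | tmul a f =>
        rw [h.equiv_tmul]
        rfl
    have h3 : ((LinearMap.tensorProductEnd R A M).toRingHom :
        A ⊗[R] Module.End R M → Module.End A (A ⊗[R] M)) = h.equiv := funext h2
    rw [h3]
    exact h.equiv.bijective)

/-- finite global dimension of `R_p ⊗ End_R(M)` in terms of the localized module -/
theorem gl_loc {R : Type} [CommRing R] [IsNoetherianRing R] (M : Type) [AddCommGroup M]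
    [Module R M] [Module.Finite R M] (p : Ideal R) [p.IsPrime] (d : ℕ)
    (h : GlDimLE (Localization.AtPrime p ⊗[R] Module.End R M) d)
    (X : ModuleCat.{0} (Module.End (Localization.AtPrime p) (LocalizedModule p.primeCompl M))) :
    HasProjectiveDimensionLT X (d + 1) := by
  let Rm := Localization.AtPrime p
  have hfl1 : Module.Flat R Rm := IsLocalization.flat Rm p.primeCompl
  let r1 : Rm ⊗[R] Module.End R M ≃+* Module.End Rm (Rm ⊗[R] M) := endLoc M Rm
  let l : (Rm ⊗[R] M) ≃ₗ[Rm] LocalizedModule p.primeCompl M :=
    (LocalizedModule.equivTensorProduct p.primeCompl M).symm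
  let r2 : Module.End Rm (Rm ⊗[R] M) ≃+* Module.End Rm (LocalizedModule p.primeCompl M) :=
    l.conjRingEquiv
  let e : ModuleCat.{0} (Module.End Rm (LocalizedModule p.primeCompl M)) ≌
      ModuleCat.{0} (Rm ⊗[R] Module.End R M) :=
    ModuleCat.restrictScalarsEquivalenceOfRingEquiv (r1.trans r2)
  exact pd_of_equiv e (d + 1) X (h _)

end Pool.Agent.TH215.NC
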