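import Pool.Agent.TH350.J294

/-!
Global dimension of endomorphism rings of free modules over the local ring of
`ℂ[x, y, z, w]/(w⁴ + x³ + y³ + z³)` at the origin.
-/

set_option autoImplicit false

open CategoryTheory Abelian

namespace Pool.Agent.TH215.NC

open Pool.Agent.TH215.TM

universe u v w

/-- projective dimension bounds descend along an equivalence -/
theorem pd_of_equiv {C : Type u} [Category.{v} C] [Abelian C] [EnoughProjectives C]
    {D : Type u} [Category.{v} D] [Abelian D] [HasExt.{w} C] [HasExt.{w} D]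
    (e : C ≌ D) [e.functor.Additive] (d : ℕ) (X : C)
    (h : HasProjectiveDimensionLT (e.functor.obj X) d) : HasProjectiveDimensionLT X d := by
  rw [hasProjectiveDimensionLT_iff]
  intro i hi Y x
  have hb := e.functor.mapExt_bijective_of_preservesProjectiveObjects X Y i
  apply hb.injective
  rw [map_zero]
  exact Ext.eq_zero_of_hasProjectiveDimensionLT _ d hi

/-- global dimension of `End_R(F)` for `F` finite free -/
theorem gl_of_end (R : Type) [CommRing R] (F : Type) [AddCommGroup F] [Module R F]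
    [Module.Finite R F] [Module.Free R F] [Nontrivial F] (d : ℕ)
    (h : ∀ N : ModuleCat.{0} (Module.End R F), HasProjectiveDimensionLT N d)
    (N : ModuleCat.{0} R) : HasProjectiveDimensionLT N d := by
  classical
  let b := Module.Free.chooseBasis R F
  let ι := Module.Free.ChooseBasisIndex R F
  have hne : Nonempty ι := b.index_nonempty
  obtain ⟨i⟩ := hne
  let e1 : ModuleCat.{0} R ≌ ModuleCat.{0} (Matrix ι ι R) := ModuleCat.matrixEquivalence R i
  let r : Module.End R F ≃+* Matrix ι ι R := (LinearMap.toMatrixAlgEquiv b).toRingEquiv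
  let e2 : ModuleCat.{0} (Matrix ι ι R) ≌ ModuleCat.{0} (Module.End R F) :=
    ModuleCat.restrictScalarsEquivalenceOfRingEquiv r
  have h1 : e1.functor.Additive := Functor.additive_of_preserves_binary_products _
  have h2 : e2.functor.Additive := inferInstance
  exact pd_of_equiv e1 d N (pd_of_equiv e2 d _ (h _))

section loc

variable {R Rm : Type} [CommRing R] [CommRing Rm] [Algebra R Rm] (M : Submonoid R)
  [IsLocalization M Rm] {n : Type} [Fintype n] [DecidableEq n]

include M in
theorem ker_range_loc (P Q : Matrix n n R)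
    (h : LinearMap.ker P.mulVecLin = LinearMap.range Q.mulVecLin) :
    LinearMap.ker (P.map (algebraMap R Rm)).mulVecLin =
      LinearMap.range (Q.map (algebraMap R Rm)).mulVecLin := by
  classical
  have hPQ : P * Q = 0 := by
    apply Matrix.toLin'.injective
    ext1 i
    ext1
    have : Q.mulVecLin (LinearMap.single R (fun _ => R) i 1) ∈ LinearMap.ker P.mulVecLin := by
      rw [h]; exact ⟨_, rfl⟩
    rw [LinearMap.mem_ker, Matrix.mulVecLin_apply, Matrix.mulVecLin_apply] at this
    simpa using this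
  apply le_antisymm
  · intro v hv
    rw [LinearMap.mem_ker, Matrix.mulVecLin_apply] at hv
    obtain ⟨s, hs⟩ := IsLocalization.exist_integer_multiples M (Finset.univ : Finset n) v
    choose v' hv' using fun i => hs i (Finset.mem_univ i)
    have hv1 : (algebraMap R Rm) ∘ v' = (s : R) • v := funext fun i => hv' i
    have h3 : ∀ i, algebraMap R Rm ((P.mulVec v') i) = algebraMap R Rm 0 := by
      intro i
      rw [RingHom.map_mulVec]
      have : (P.map (algebraMap R Rm)).mulVec ((algebraMap R Rm) ∘ v') = 0 := by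
        rw [hv1, Matrix.mulVec_smul, hv, smul_zero]
      rw [map_zero]
      exact congrFun this i
    have h4 : ∀ i, ∃ t : M, (t : R) * (P.mulVec v') i = 0 := by
      intro i
      obtain ⟨t, ht⟩ := (IsLocalization.eq_iff_exists M Rm).1 (h3 i)
      exact ⟨t, by rw [ht, mul_zero]⟩
    choose t ht using h4
    let T : M := ∏ i, t i
    have h5 : P.mulVec ((T : R) • v') = 0 := by
      rw [Matrix.mulVec_smul]
      funext i
      have : (T : R) = (∏ j ∈ Finset.univ.erase i, (t j : R)) * t i := by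
        rw [mul_comm, Finset.mul_prod_erase _ (fun j => (t j : R)) (Finset.mem_univ i)]
        simp [T]
      rw [Pi.smul_apply, smul_eq_mul, this, mul_assoc, ht, mul_zero]
      rfl
    have h6 : ((T : R) • v') ∈ LinearMap.range Q.mulVecLin := by
      rw [← h]; exact h5
    obtain ⟨u, hu⟩ := h6
    rw [Matrix.mulVecLin_apply] at hu
    have hu2 : (Q.map (algebraMap R Rm)).mulVec ((algebraMap R Rm) ∘ u) =
        ((T : R) * (s : R)) • v := by
      have h7 : (Q.map (algebraMap R Rm)).mulVec ((algebraMap R Rm) ∘ u) =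
          (algebraMap R Rm) ∘ (Q.mulVec u) := by
        funext i
        exact (RingHom.map_mulVec _ Q u i).symm
      rw [h7, hu, mul_smul, ← hv1]
      funext i
      simp [Algebra.smul_def]
    let U : Rmˣ := (IsLocalization.map_units Rm (T * s)).unit
    have hU : (U : Rm) = algebraMap R Rm (T * s : R) := by
      simp [U]
    refine ⟨(U⁻¹ : Rmˣ) • ((algebraMap R Rm) ∘ u), ?_⟩
    rw [Matrix.mulVecLin_apply, Units.smul_def, Matrix.mulVec_smul, hu2]
    funext i
    rw [Pi.smul_apply, Pi.smul_apply, smul_eq_mul, Algebra.smul_def, ← mul_assoc, ← hU,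
      Units.inv_mul, one_mul]
  · rintro _ ⟨u, rfl⟩
    rw [LinearMap.mem_ker, Matrix.mulVecLin_apply, Matrix.mulVecLin_apply, Matrix.mulVec_mulVec,
      ← Matrix.map_mul, hPQ]
    simp

end loc

open Pool.Agent.TH350.J294 in
/-- unbounded self-extensions over localizations of `R` through which `θ` factors -/
theorem unbounded_loc {Rm : Type} [CommRing Rm] [Algebra RR Rm] (M : Submonoid RR)
    [IsLocalization M Rm] (hM : ∀ s ∈ M, IsUnit (θ s)) :
    ∃ N : ModuleCat.{0} Rm, Module.Finite Rm N ∧
      ∀ n : ℕ, ∃ j, n ≤ j ∧ Nontrivial (Ext N N j) := by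
  have hff : ff ≠ 0 := (Polynomial.monic_X_pow_add_C g3 (by norm_num)).ne_zero
  obtain ⟨t, ht⟩ : ∃ t : Polynomial S3, t = Polynomial.X := ⟨_, rfl⟩
  obtain ⟨a, ha⟩ : ∃ a : Polynomial S3, a = Polynomial.C (MvPolynomial.X 0 + MvPolynomial.X 1) :=
    ⟨_, rfl⟩
  obtain ⟨b, hb⟩ : ∃ b : Polynomial S3, b = Polynomial.C (MvPolynomial.X 0 ^ 2 -
    MvPolynomial.X 0 * MvPolynomial.X 1 + MvPolynomial.X 1 ^ 2) := ⟨_, rfl⟩
  obtain ⟨z, hz⟩ : ∃ z : Polynomial S3, z = Polynomial.C (MvPolynomial.X 2) := ⟨_, rfl⟩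
  have hff' : ff = t ^ 4 + a * b + z ^ 3 := by rw [ff_eq, ht, ha, hb, hz]
  have hPQ : P4 t a b z * Q4 t a b z = ff • 1 := by rw [P4_mul_Q4, hff']
  have hQP : Q4 t a b z * P4 t a b z = ff • 1 := by rw [Q4_mul_P4, hff']
  have e1 : θ (AdjoinRoot.mk ff t) = DualNumber.eps := by
    rw [ht, AdjoinRoot.mk_X]
    exact AdjoinRoot.lift_root _
  have e2 : θ (AdjoinRoot.mk ff a) = 0 := by
    rw [ha, AdjoinRoot.mk_C]
    exact (AdjoinRoot.lift_of _).trans (by simp)
  have e3 : θ (AdjoinRoot.mk ff b) = 0 := by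
    rw [hb, AdjoinRoot.mk_C]
    exact (AdjoinRoot.lift_of _).trans (by simp)
  have e4 : θ (AdjoinRoot.mk ff z) = 0 := by
    rw [hz, AdjoinRoot.mk_C]
    exact (AdjoinRoot.lift_of _).trans (by simp)
  have k1 := ker_eq_range ff hff (AdjoinRoot.mk ff) AdjoinRoot.mk_surjective
    (fun a => AdjoinRoot.mk_eq_zero) _ _ hPQ hQP
  have k2 := ker_eq_range ff hff (AdjoinRoot.mk ff) AdjoinRoot.mk_surjective
    (fun a => AdjoinRoot.mk_eq_zero) _ _ hQP hPQ
  have l1 := ker_range_loc (Rm := Rm) M _ _ k1
  have l2 := ker_range_loc (Rm := Rm) M _ _ k2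
  let θm : Rm →+* DualNumber ℂ := IsLocalization.lift (M := M) (g := θ) (fun s => hM s s.2)
  have hθ : ∀ r, θm (algebraMap RR Rm r) = θ r := fun r => IsLocalization.lift_eq _ r
  let π : Polynomial S3 →+* Rm := (algebraMap RR Rm).comp (AdjoinRoot.mk ff)
  refine unbounded_of_periodic (Fin 4 → Rm) _ _ l1 l2 fun ⟨γ, hγ⟩ =>
    not_regular π θm t a b z ((hθ _).trans e1) ((hθ _).trans e2) ((hθ _).trans e3)
      ((hθ _).trans e4) γ ?_
  have h9 : (Q4 t a b z).map π = ((Q4 t a b z).map (AdjoinRoot.mk ff)).map (algebraMap RR Rm) := by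
    rw [Matrix.map_map]
    rfl
  rw [h9]
  exact hγ

/-- The endomorphism ring of a nonzero finite free module over the local ring at the origin has
infinite global dimension. -/
theorem gl_infinite {Rm : Type} [CommRing Rm] [Algebra RR Rm] (M : Submonoid RR)
    [IsLocalization M Rm] (hM : ∀ s ∈ M, IsUnit (Pool.Agent.TH350.J294.θ s))
    (F : Type) [AddCommGroup F] [Module Rm F] [Module.Finite Rm F] [Module.Free Rm F]
    [Nontrivial F] (d : ℕ) :
    ¬ ∀ N : ModuleCat.{0} (Module.End Rm F), HasProjectiveDimensionLT N d := by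
  intro h
  obtain ⟨N, _, hj⟩ := unbounded_loc (Rm := Rm) M hM
  obtain ⟨j, hdj, hj⟩ := hj d
  have h1 : HasProjectiveDimensionLT N d := gl_of_end Rm F d h N
  have h2 : Subsingleton (Ext N N j) :=
    subsingleton_of_forall_eq 0 fun x => Ext.eq_zero_of_hasProjectiveDimensionLT x d hdj
  exact not_subsingleton_iff_nontrivial.2 hj h2

end Pool.Agent.TH215.NC
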