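import Mathlib
import Pool.Agent.W506.H2

/-!
A finitely generated module of projective dimension at most one over a noetherian local ring
without self-extensions is free.
-/

set_option autoImplicit false

open TensorProduct

namespace Pool.Agent.TH215.NC

open Pool.Agent.W506.Hilb

universe u

section loc

variable {A : Type u} [CommRing A] [IsLocalRing A] (F : Type u) [AddCommGroup F] [Module A F]
  [Module.Finite A F]

/-- minimal presentations -/
theorem exists_minimal : ∃ (n : ℕ) (q : (Fin n → A) →ₗ[A] F), Function.Surjective q ∧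
    ∀ c, q c = 0 → ∀ i, c i ∈ IsLocalRing.maximalIdeal A := by
  let k := IsLocalRing.ResidueField A
  let b := Module.finBasis k (k ⊗[A] F)
  have hsurj : Function.Surjective (TensorProduct.mk A k F 1) :=
    TensorProduct.mk_surjective A F k Ideal.Quotient.mk_surjective
  choose f hf using fun i => hsurj (b i)
  have hf' : ∀ i, (1 : k) ⊗ₜ[A] f i = b i := hf
  have hspan := IsLocalRing.span_eq_top_of_tmul_eq_basis (R := A) f b hf'
  refine ⟨_, Fintype.linearCombination A f, ?_, ?_⟩
  · rw [← LinearMap.range_eq_top, Fintype.range_linearCombination, hspan]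
  · intro c hc i
    rw [Fintype.linearCombination_apply] at hc
    have h1 : ∑ j, (algebraMap A k (c j)) • b j = 0 := by
      have h2 := congrArg (fun v => (1 : k) ⊗ₜ[A] v) hc
      simp only [TensorProduct.tmul_sum, TensorProduct.tmul_zero] at h2
      rw [← h2]
      refine Finset.sum_congr rfl fun j _ => ?_
      rw [← hf', TensorProduct.tmul_smul, algebraMap_smul]
    have h3 := (Fintype.linearIndependent_iff.1 b.linearIndependent) _ h1 i
    exact (IsLocalRing.residue_eq_zero_iff _).1 h3

/-- extension property for another presentation -/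
theorem ext_other {R : Type u} [CommRing R] {F P Q : Type u} [AddCommGroup F] [Module R F]
    [AddCommGroup P] [Module R P] [AddCommGroup Q] [Module R Q] [Module.Projective R P]
    [Module.Projective R Q] (q : Q →ₗ[R] F) (hq : Function.Surjective q)
    (hext : ∀ h : LinearMap.ker q →ₗ[R] F, ∃ H : Q →ₗ[R] F, ∀ v : LinearMap.ker q, H v = h v)
    (p : P →ₗ[R] F) (hp : Function.Surjective p) (h : LinearMap.ker p →ₗ[R] F) :
    ∃ H : P →ₗ[R] F, ∀ v : LinearMap.ker p, H v = h v := by
  obtain ⟨α, hα⟩ := Module.projective_lifting_property q p hq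
  obtain ⟨β, hβ⟩ := Module.projective_lifting_property p q hp
  have hα' : ∀ v, q (α v) = p v := fun v => LinearMap.congr_fun hα v
  have hβ' : ∀ v, p (β v) = q v := fun v => LinearMap.congr_fun hβ v
  let β1 : LinearMap.ker q →ₗ[R] LinearMap.ker p := β.restrict (fun v hv => by
    rw [LinearMap.mem_ker] at hv ⊢
    rw [hβ', hv])
  let δ : P →ₗ[R] LinearMap.ker p := (β ∘ₗ α - LinearMap.id).codRestrict _ (fun v => by
    rw [LinearMap.mem_ker]
    simp only [LinearMap.sub_apply, LinearMap.comp_apply, LinearMap.id_apply, map_sub]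
    rw [hβ', hα', sub_self])
  obtain ⟨H, hH⟩ := hext (h ∘ₗ β1)
  refine ⟨H ∘ₗ α - h ∘ₗ δ, fun v => ?_⟩
  have hv : p v = 0 := v.2
  have h1 : α v ∈ LinearMap.ker q := by rw [LinearMap.mem_ker, hα', hv]
  have h2 := hH ⟨α v, h1⟩
  have h3 : δ v = β1 ⟨α v, h1⟩ - v := Subtype.ext rfl
  rw [LinearMap.sub_apply, LinearMap.comp_apply, LinearMap.comp_apply, h3, map_sub, h2]
  simp

/-- A finitely generated module of projective dimension at most one over a noetherian local ring
without self-extensions is free. -/
theorem free_of_ext [IsNoetherianRing A] (hpd : PdLT A F 2) {Q : Type u} [AddCommGroup Q]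
    [Module A Q] [Module.Projective A Q] (q : Q →ₗ[A] F) (hq : Function.Surjective q)
    (hext : ∀ h : LinearMap.ker q →ₗ[A] F, ∃ H : Q →ₗ[A] F, ∀ v : LinearMap.ker q, H v = h v) :
    Module.Free A F := by
  obtain ⟨n, p, hp, hmin⟩ := exists_minimal (A := A) F
  let N := LinearMap.ker p
  have hN : Module.Projective A N := projective_of_pdLT_one
    (pdLT_left N.subtype p N.injective_subtype hp (LinearMap.exact_subtype_ker_map p)
      (pdLT_one_of_projective inferInstance) hpd)
  have hNf : Module.Finite A N := inferInstance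
  have hNfree : Module.Free A N := Module.free_of_flat_of_isLocalRing
  rcases subsingleton_or_nontrivial N with hs | hs
  · have hker : LinearMap.ker p = ⊥ := (Submodule.subsingleton_iff_eq_bot).1 hs
    exact Module.Free.of_equiv (LinearEquiv.ofBijective p ⟨LinearMap.ker_eq_bot.1 hker, hp⟩)
  · let b := Module.Free.chooseBasis A N
    obtain ⟨i⟩ : Nonempty (Module.Free.ChooseBasisIndex A N) := b.index_nonempty
    have htop : (⊤ : Submodule A F) ≤ IsLocalRing.maximalIdeal A • (⊤ : Submodule A F) := by
      intro v _
      obtain ⟨H, hH⟩ := ext_other q hq hext p hp (b.constr A (fun _ => v))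
      have h1 : H (b i) = v := by rw [hH, Module.Basis.constr_basis]
      have h2 : ((b i : N) : Fin n → A) = ∑ j, ((b i : N) : Fin n → A) j • Pi.single j (1 : A) := by
        conv_lhs => rw [pi_eq_sum_univ' ((b i : N) : Fin n → A)]
      rw [← h1, h2, map_sum]
      refine Submodule.sum_mem _ fun j _ => ?_
      rw [map_smul]
      exact Submodule.smul_mem_smul (hmin _ (b i).2 j) trivial
    have hbot := Submodule.eq_bot_of_le_smul_of_le_jacobson_bot (IsLocalRing.maximalIdeal A) ⊤
      (Module.Finite.fg_top) htop (IsLocalRing.maximalIdeal_le_jacobson _)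
    have : Subsingleton F := by
      refine subsingleton_of_forall_eq 0 fun v => ?_
      have : v ∈ (⊤ : Submodule A F) := trivial
      rwa [hbot, Submodule.mem_bot] at this
    infer_instance

end loc

end Pool.Agent.TH215.NC
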