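import Pool.Agent.TH215.NC.Bc
import Pool.Agent.TH215.NC.Loc
import Pool.Agent.TH215.NC.EndGl
import Pool.Agent.TH182.NC.Defs
import Pool.Agent.TH215.TM.AsmMM

/-!
The local part of the proof that `ℂ[x, y, z, w] / (w⁴ + x³ + y³ + z³)` has no non-commutative
crepant resolution.
-/

set_option autoImplicit false

open TensorProduct CategoryTheory

namespace Pool.Agent.TH215.NC

open Pool.Agent.W506.Hilb Pool.Agent.TH215.TM Pool.Agent.TH182.NC

section L1

variable (N : Type) [AddCommGroup N] [Module S3 N] [Module RR N] [IsScalarTower S3 RR N]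

/-- relative trace: if `s` is in the image of the trace, multiplication by `s` factors through
the induced module -/
theorem sigma (a : Module.End S3 N) (s : S3) (ha : tr4 (phiN N) a = s • (1 : Module.End S3 N)) :
    ∃ σ : N →ₗ[RR] RR ⊗[S3] N,
      ∀ v, (LinearMap.liftBaseChange RR (LinearMap.id : N →ₗ[S3] N)) (σ v) = s • v :=
  higman_s 4 g3 _ rfl N (phiN N) (fun _ => rfl) a s ha

/-- factorizations through projectives over `S` and the trace give factorizations over `R` -/
theorem fac_RR (a : Module.End S3 N) (s t : S3)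
    (ha : tr4 (phiN N) a = s • (1 : Module.End S3 N)) (ht : Fac S3 N t) :
    Fac RR N (algebraMap S3 RR (s * t)) := by
  obtain ⟨σ, hσ⟩ := sigma N a s ha
  obtain ⟨F, _, _, hF, q, p, hpq⟩ := ht
  refine ⟨RR ⊗[S3] F, inferInstance, inferInstance, inferInstance, (q.baseChange RR) ∘ₗ σ,
    (LinearMap.liftBaseChange RR (LinearMap.id : N →ₗ[S3] N)) ∘ₗ (p.baseChange RR), fun v => ?_⟩
  have key : ∀ u : RR ⊗[S3] N, (p.baseChange RR) ((q.baseChange RR) u) = t • u := by
    intro u
    induction u using TensorProduct.induction_on with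
    | zero => simp
    | add x y hx hy => rw [map_add, map_add, hx, hy, smul_add]
    | tmul r v =>
      rw [LinearMap.baseChange_tmul, LinearMap.baseChange_tmul, hpq, TensorProduct.tmul_smul]
  change (LinearMap.liftBaseChange RR (LinearMap.id : N →ₗ[S3] N))
    ((p.baseChange RR) ((q.baseChange RR) (σ v))) = _
  rw [key, ← algebraMap_smul RR t, map_smul, hσ, algebraMap_smul, algebraMap_smul, smul_smul,
    mul_comm t]

end L1

section J3

lemma RR_induction {P : RR → Prop} (h0 : ∀ s : S3, P (algebraMap S3 RR s))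
    (h1 : ∀ a b, P a → P b → P (a + b)) (h2 : ∀ a, P (a * wR)) (r : RR) : P r := by
  induction r using AdjoinRoot.induction_on with
  | ih p =>
    induction p using Polynomial.induction_on with
    | C s => exact h0 s
    | add p q hp hq =>
      have := h1 _ _ hp hq
      rwa [← map_add] at this
    | monomial n a _ =>
      have e : (AdjoinRoot.mk (Polynomial.X ^ 4 + Polynomial.C g3)
          (Polynomial.C a * Polynomial.X ^ (n + 1)) : RR) =
          (AdjoinRoot.mk (Polynomial.X ^ 4 + Polynomial.C g3)
          (Polynomial.C a * Polynomial.X ^ n) : RR) * wR := by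
        rw [pow_succ (Polynomial.X : Polynomial S3) n, ← mul_assoc, map_mul]
        rfl
      rw [e]
      exact h2 _

/-- the evaluation at the origin -/
noncomputable def evR : RR →+* ℂ :=
  AdjoinRoot.lift (MvPolynomial.constantCoeff (σ := Fin 3) (R := ℂ)) 0 (by
    rw [Polynomial.eval₂_add, Polynomial.eval₂_pow, Polynomial.eval₂_X, Polynomial.eval₂_C, g3]
    simp)

lemma evR_of (s : S3) : evR (algebraMap S3 RR s) = MvPolynomial.constantCoeff s :=
  AdjoinRoot.lift_of _

lemma evR_wR : evR wR = 0 := AdjoinRoot.lift_root _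

lemma evR_xR (i : Fin 3) : evR (xR i) = 0 := by
  have : evR (algebraMap S3 RR (MvPolynomial.X i)) = 0 := by rw [evR_of]; simp
  exact this

lemma J3_le : J3 ≤ RingHom.ker evR := by
  rw [J3, Ideal.span_le]
  rintro _ (⟨i, rfl⟩ | rfl)
  · exact evR_xR i
  · exact evR_wR

lemma sub_const_mem (s : S3) : s - MvPolynomial.C (MvPolynomial.constantCoeff s) ∈ mS := by
  induction s using MvPolynomial.induction_on with
  | C c => simp
  | add p q hp hq =>
    have : p + q - MvPolynomial.C (MvPolynomial.constantCoeff (p + q)) =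
        (p - MvPolynomial.C (MvPolynomial.constantCoeff p)) +
        (q - MvPolynomial.C (MvPolynomial.constantCoeff q)) := by
      simp only [map_add]
      ring
    rw [this]
    exact Ideal.add_mem _ hp hq
  | mul_X p i _ =>
    simp only [map_mul, MvPolynomial.constantCoeff_X, mul_zero, map_zero, sub_zero]
    exact Ideal.mul_mem_left _ _ (Ideal.subset_span ⟨i, rfl⟩)

lemma map_mS_le : mS ≤ J3.comap (algebraMap S3 RR) := by
  rw [mS, Ideal.span_le]
  rintro _ ⟨i, rfl⟩
  exact xR_mem i

lemma evR_sub_mem (r : RR) : r - algebraMap S3 RR (MvPolynomial.C (evR r)) ∈ J3 := by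
  refine RR_induction (P := fun r => r - algebraMap S3 RR (MvPolynomial.C (evR r)) ∈ J3)
    ?_ ?_ ?_ r
  · intro s
    rw [evR_of, ← map_sub]
    exact map_mS_le (sub_const_mem s)
  · intro a b ha hb
    have : a + b - algebraMap S3 RR (MvPolynomial.C (evR (a + b))) =
        (a - algebraMap S3 RR (MvPolynomial.C (evR a))) +
        (b - algebraMap S3 RR (MvPolynomial.C (evR b))) := by
      simp only [map_add]
      ring
    rw [this]
    exact Ideal.add_mem _ ha hb
  · intro a
    rw [map_mul, evR_wR, mul_zero, map_zero, map_zero, sub_zero]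
    exact Ideal.mul_mem_left _ _ wR_mem

lemma J3_eq : J3 = RingHom.ker evR := by
  refine le_antisymm J3_le fun r hr => ?_
  have h := evR_sub_mem r
  rw [RingHom.mem_ker] at hr
  rwa [hr, map_zero, map_zero, sub_zero] at h

instance J3_prime : J3.IsPrime := by
  rw [J3_eq]
  exact RingHom.ker_isPrime evR

lemma algebraMap_notMem {s : S3} (hs : s ∉ mS) : algebraMap S3 RR s ∉ J3 := by
  intro h
  rw [J3_eq, RingHom.mem_ker, evR_of] at h
  apply hs
  have := sub_const_mem s
  rwa [h, map_zero, sub_zero] at this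

open Pool.Agent.TH350.J294 in
lemma θ_isUnit {r : RR} (hr : r ∉ J3) : IsUnit (θ r) := by
  rw [J3_eq, RingHom.mem_ker] at hr
  have h2 : TrivSqZeroExt.fst (θ r) = evR r := by
    refine RR_induction (P := fun r => TrivSqZeroExt.fst (θ r) = evR r) ?_ ?_ ?_ r
    · intro s
      rw [evR_of]
      have : θ (algebraMap S3 RR s) = algebraMap ℂ (DualNumber ℂ)
        (MvPolynomial.constantCoeff s) := AdjoinRoot.lift_of _
      rw [this]
      rfl
    · intro a b ha hb
      rw [map_add, map_add, TrivSqZeroExt.fst_add, ha, hb]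
    · intro a
      have : θ wR = DualNumber.eps := AdjoinRoot.lift_root _
      rw [map_mul, map_mul, TrivSqZeroExt.fst_mul, this, evR_wR, mul_zero, DualNumber.fst_eps,
        mul_zero]
  rw [TrivSqZeroExt.isUnit_iff_isUnit_fst, h2]
  exact isUnit_iff_ne_zero.2 hr

end J3

section main

lemma nontrivial_loc (M : Type) [AddCommGroup M] [Module RR M] [Nontrivial M]
    (htf : ∀ (r : RR) (m : M), r • m = 0 → r = 0 ∨ m = 0) :
    Nontrivial (LocalizedModule J3.primeCompl M) := by
  obtain ⟨m, hm⟩ := exists_ne (0 : M)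
  refine ⟨⟨LocalizedModule.mk m 1, 0, fun h => ?_⟩⟩
  rw [← LocalizedModule.zero_mk (1 : J3.primeCompl), LocalizedModule.mk_eq] at h
  obtain ⟨u, hu⟩ := h
  simp only [one_smul, smul_zero] at hu
  rcases htf (u : RR) m hu with h | h
  · exact u.2 (by rw [h]; exact Ideal.zero_mem _)
  · exact hm h

/-- The local part: if `s · id` is a relative trace with `s(0) ≠ 0`, `pd_S M ≤ 1` and the
self-extensions of `M` vanish near the origin, then `M` is free at the origin. -/
theorem local_free (M : Type) [AddCommGroup M] [Module S3 M] [Module RR M]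
    [IsScalarTower S3 RR M] [Module.Finite RR M]
    (htr : ∃ s ∉ mS, ∃ a, tr4 (phiN M) a = s • (1 : Module.End S3 M))
    (hpd : PdLT S3 M 2) {Q : Type} [AddCommGroup Q] [Module RR Q] [Module.Finite RR Q]
    [Module.Projective RR Q] (q : Q →ₗ[RR] M) (hq : Function.Surjective q)
    (hext : ∀ h : LinearMap.ker q →ₗ[RR] M, ∃ t ∉ J3, ∃ H : Q →ₗ[RR] M,
      ∀ v : LinearMap.ker q, H v = t • h v) :
    Module.Free (Localization.AtPrime J3) (LocalizedModule J3.primeCompl M) := by
  obtain ⟨s, hs, a, ha⟩ := htr
  let Rm := Localization.AtPrime J3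
  have hfl1 : Module.Flat RR Rm := IsLocalization.flat Rm J3.primeCompl
  have hfl0 : Module.Free S3 RR := Module.Free.of_basis
    (AdjoinRoot.powerBasis' (Polynomial.monic_X_pow_add_C g3 (by norm_num))).basis
  have hfl : Module.Flat S3 Rm := Module.Flat.trans S3 RR Rm
  have hunit : IsUnit (algebraMap S3 Rm s) := by
    rw [IsScalarTower.algebraMap_apply S3 RR Rm]
    exact IsLocalization.map_units Rm (⟨algebraMap S3 RR s, algebraMap_notMem hs⟩ : J3.primeCompl)
  have hpd' : PdLT Rm (Rm ⊗[RR] M) 2 :=
    pd_local 4 g3 _ rfl M (phiN M) (fun _ => rfl) a s ha Rm hunit hpd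
  have hnoeth : IsNoetherianRing Rm := IsLocalization.isNoetherianRing J3.primeCompl Rm inferInstance
  have hfree : Module.Free Rm (Rm ⊗[RR] M) := by
    refine free_of_ext (Rm ⊗[RR] M) hpd' (q.baseChange Rm) (LinearMap.lTensor_surjective _ hq) ?_
    exact ext_loc q J3.primeCompl (fun h => hext h) Rm
  exact Module.Free.of_equiv (LocalizedModule.equivTensorProduct J3.primeCompl M).symm

/-- The local contradiction. -/
theorem not_gl (M : Type) [AddCommGroup M] [Module S3 M] [Module RR M]
    [IsScalarTower S3 RR M] [Module.Finite RR M] [Nontrivial (LocalizedModule J3.primeCompl M)]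
    (htr : ∃ s ∉ mS, ∃ a, tr4 (phiN M) a = s • (1 : Module.End S3 M))
    (hpd : PdLT S3 M 2) {Q : Type} [AddCommGroup Q] [Module RR Q] [Module.Finite RR Q]
    [Module.Projective RR Q] (q : Q →ₗ[RR] M) (hq : Function.Surjective q)
    (hext : ∀ h : LinearMap.ker q →ₗ[RR] M, ∃ t ∉ J3, ∃ H : Q →ₗ[RR] M,
      ∀ v : LinearMap.ker q, H v = t • h v) (d : ℕ) :
    ¬ ∀ X : ModuleCat.{0} (Module.End (Localization.AtPrime J3)
      (LocalizedModule J3.primeCompl M)), HasProjectiveDimensionLT X d := by
  have hfree := local_free M htr hpd q hq hext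
  have hfin : Module.Finite (Localization.AtPrime J3) (LocalizedModule J3.primeCompl M) :=
    inferInstance
  exact gl_infinite J3.primeCompl (fun s hs => θ_isUnit hs) (LocalizedModule J3.primeCompl M) d

end main

end Pool.Agent.TH215.NC
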