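import Mathlib
import Pool.Agent.W506.H2

/-!
Base change: projective dimension, relative trace, extension property.
-/

set_option autoImplicit false

open TensorProduct CategoryTheory

namespace Pool.Agent.TH215.NC

open Pool.Agent.W506.Hilb

universe u

theorem pdLT_retract {R M N : Type u} [CommRing R] [AddCommGroup M] [Module R M]
    [AddCommGroup N] [Module R N] (i : M →ₗ[R] N) (p : N →ₗ[R] M) (h : p ∘ₗ i = LinearMap.id)
    {n : ℕ} (hN : PdLT R N n) : PdLT R M n :=
  Retract.hasProjectiveDimensionLT (X := ModuleCat.of R M) (Y := ModuleCat.of R N)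
    { i := ModuleCat.ofHom i, r := ModuleCat.ofHom p, retract := by
        rw [← ModuleCat.ofHom_comp, h]
        rfl } n

theorem baseChange_exact {S : Type u} [CommRing S] (B : Type u) [CommRing B] [Algebra S B]
    [Module.Flat S B] {X Y Z : Type u} [AddCommGroup X] [AddCommGroup Y] [AddCommGroup Z]
    [Module S X] [Module S Y] [Module S Z] (f : X →ₗ[S] Y) (g : Y →ₗ[S] Z)
    (h : Function.Exact f g) : Function.Exact (f.baseChange B) (g.baseChange B) :=
  Module.Flat.lTensor_exact B h

/-- flat base change does not increase the projective dimension -/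
theorem pdLT_baseChange {S : Type u} [CommRing S] (B : Type u) [CommRing B] [Algebra S B]
    [Module.Flat S B] {n : ℕ} : ∀ (M : Type u) [AddCommGroup M] [Module S M],
    PdLT S M n → PdLT B (B ⊗[S] M) n := by
  induction n with
  | zero =>
    intro M _ _ h
    rw [pdLT_zero_iff] at h ⊢
    infer_instance
  | succ n ih =>
    intro M _ _ h
    match n with
    | 0 =>
      have hp := projective_of_pdLT_one h
      exact pdLT_one_of_projective inferInstance
    | n + 1 =>
      let π : (M →₀ S) →ₗ[S] M := Finsupp.linearCombination S id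
      have hπ : Function.Surjective π := Finsupp.linearCombination_id_surjective S M
      have hK : PdLT S (LinearMap.ker π) (n + 1) :=
        pdLT_left (LinearMap.ker π).subtype π (Submodule.injective_subtype _) hπ
          (LinearMap.exact_subtype_ker_map π)
          (pdLT_mono (by omega) (pdLT_one_of_projective inferInstance)) h
      have h1 := ih _ hK
      have h2 : PdLT B (B ⊗[S] (M →₀ S)) (n + 2) :=
        pdLT_mono (by omega) (pdLT_one_of_projective inferInstance)
      have hex0 : Function.Exact (LinearMap.ker π).subtype π := LinearMap.exact_subtype_ker_map π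
      have hex := baseChange_exact (X := LinearMap.ker π) (Y := M →₀ S) (Z := M) B
        (LinearMap.ker π).subtype π hex0
      exact pdLT_right ((LinearMap.ker π).subtype.baseChange B) (π.baseChange B)
        (Module.Flat.lTensor_preserves_injective_linearMap _ (Submodule.injective_subtype _))
        (LinearMap.lTensor_surjective _ hπ) hex h1 h2

/-- relative trace: if `s` is in the image of the trace, multiplication by `s` factors through
the induced module -/
theorem higman_s {S : Type u} [CommRing S] (n : ℕ) (h : S) (f : Polynomial S)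
    (hf : f = Polynomial.X ^ n + Polynomial.C h) (N : Type u) [AddCommGroup N]
    [Module S N] [Module (AdjoinRoot f) N] [IsScalarTower S (AdjoinRoot f) N]
    (φ : Module.End S N) (hφ : ∀ v, φ v = AdjoinRoot.root f • v)
    (a : Module.End S N) (c : S)
    (ha : ∑ i ∈ Finset.range n, φ ^ i * a * φ ^ (n - 1 - i) = c • (1 : Module.End S N)) :
    ∃ σ : N →ₗ[AdjoinRoot f] AdjoinRoot f ⊗[S] N,
      ∀ v, (LinearMap.liftBaseChange (AdjoinRoot f) (LinearMap.id : N →ₗ[S] N)) (σ v) = c • v := by
  let w : AdjoinRoot f := AdjoinRoot.root f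
  have hw : w ^ n = algebraMap S (AdjoinRoot f) (-h) := by
    have h1 : AdjoinRoot.mk f f = 0 := AdjoinRoot.mk_self
    have h2 : AdjoinRoot.mk f (Polynomial.X ^ n + Polynomial.C h) =
        w ^ n + algebraMap S (AdjoinRoot f) h := by
      rw [map_add, map_pow, AdjoinRoot.mk_X, AdjoinRoot.mk_C]
      rfl
    rw [map_neg]
    rw [← hf] at h2
    exact eq_neg_of_add_eq_zero_left (h2.symm.trans h1)
  have hpow : ∀ (i : ℕ) (v : N), (φ ^ i) v = w ^ i • v := by
    intro i
    induction i with
    | zero => intro v; simp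
    | succ i ih =>
      intro v
      rw [pow_succ', Module.End.mul_apply, ih, hφ, pow_succ', mul_smul]
  let s : N →ₗ[S] AdjoinRoot f ⊗[S] N := ∑ i ∈ Finset.range n,
    (TensorProduct.mk S (AdjoinRoot f) N (w ^ i)) ∘ₗ a ∘ₗ (φ ^ (n - 1 - i))
  have hs : ∀ v, s v = ∑ i ∈ Finset.range n, (w ^ i) ⊗ₜ[S] a ((φ ^ (n - 1 - i)) v) := by
    intro v
    simp only [s, LinearMap.sum_apply, LinearMap.comp_apply, TensorProduct.mk_apply]
  have hsw : ∀ v, s (w • v) = w • s v := by
    intro v
    rw [hs, hs, Finset.smul_sum]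
    have e1 : ∀ i ∈ Finset.range n, (w ^ i) ⊗ₜ[S] a ((φ ^ (n - 1 - i)) (w • v)) =
        (w ^ i) ⊗ₜ[S] a ((φ ^ (n - i)) v) := by
      intro i hi
      have hi' := Finset.mem_range.1 hi
      rw [← hφ, ← Module.End.mul_apply (φ ^ (n - 1 - i)) φ v, ← pow_succ,
        show n - 1 - i + 1 = n - i by omega]
    have e2 : ∀ i ∈ Finset.range n, w • ((w ^ i) ⊗ₜ[S] a ((φ ^ (n - 1 - i)) v)) =
        (w ^ (i + 1)) ⊗ₜ[S] a ((φ ^ (n - (i + 1))) v) := by
      intro i _
      rw [TensorProduct.smul_tmul', smul_eq_mul, ← pow_succ', show n - 1 - i = n - (i + 1) by omega]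
    rw [Finset.sum_congr rfl e1, Finset.sum_congr rfl e2]
    have e3 := Finset.sum_range_sub (fun i => (w ^ i) ⊗ₜ[S] a ((φ ^ (n - i)) v)) n
    rw [Finset.sum_sub_distrib] at e3
    have e4 : (w ^ n) ⊗ₜ[S] a ((φ ^ (n - n)) v) = (w ^ 0) ⊗ₜ[S] a ((φ ^ (n - 0)) v) := by
      rw [Nat.sub_self, Nat.sub_zero, hpow n v, hw, pow_zero, pow_zero, Module.End.one_apply,
        algebraMap_smul, map_smul, TensorProduct.tmul_smul, TensorProduct.smul_tmul',
        Algebra.smul_def, mul_one]
    rw [e4, sub_self] at e3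
    exact (sub_eq_zero.1 e3).symm
  have hlin : ∀ (r : AdjoinRoot f) (v : N), s (r • v) = r • s v := by
    intro r
    induction r using AdjoinRoot.induction_on with
    | ih p =>
      induction p using Polynomial.induction_on with
      | C c =>
        intro v
        rw [AdjoinRoot.mk_C]
        change s (algebraMap S (AdjoinRoot f) c • v) = algebraMap S (AdjoinRoot f) c • s v
        rw [algebraMap_smul, algebraMap_smul, map_smul]
      | add p q hp hq =>
        intro v
        rw [map_add, add_smul, add_smul, map_add, hp, hq]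
      | monomial k c hk =>
        intro v
        rw [pow_succ, ← mul_assoc, map_mul, mul_smul, mul_smul, hk, AdjoinRoot.mk_X]
        change _ • s (w • v) = _ • w • s v
        rw [hsw]
  refine ⟨{ toFun := s, map_add' := s.map_add, map_smul' := hlin }, fun v => ?_⟩
  change (LinearMap.liftBaseChange (AdjoinRoot f) (LinearMap.id : N →ₗ[S] N)) (s v) = c • v
  rw [hs, map_sum]
  simp only [LinearMap.liftBaseChange_tmul, LinearMap.id_apply]
  have h3 := LinearMap.congr_fun ha v
  simp only [LinearMap.sum_apply, Module.End.mul_apply, Module.End.one_apply, hpow,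
    LinearMap.smul_apply] at h3
  simp only [hpow]
  exact h3

/-- projective dimension after base change -/
theorem pd_local {S : Type u} [CommRing S] (n : ℕ) (h : S) (f : Polynomial S)
    (hf : f = Polynomial.X ^ n + Polynomial.C h) (N : Type u) [AddCommGroup N]
    [Module S N] [Module (AdjoinRoot f) N] [IsScalarTower S (AdjoinRoot f) N]
    (φ : Module.End S N) (hφ : ∀ v, φ v = AdjoinRoot.root f • v)
    (a : Module.End S N) (c : S)
    (ha : ∑ i ∈ Finset.range n, φ ^ i * a * φ ^ (n - 1 - i) = c • (1 : Module.End S N))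
    (Rm : Type u) [CommRing Rm] [Algebra (AdjoinRoot f) Rm] [Algebra S Rm]
    [IsScalarTower S (AdjoinRoot f) Rm] [Module.Flat S Rm] (hc : IsUnit (algebraMap S Rm c))
    {k : ℕ} (hN : PdLT S N k) : PdLT Rm (Rm ⊗[AdjoinRoot f] N) k := by
  obtain ⟨σ, hσ⟩ := higman_s n h f hf N φ hφ a c ha
  set μ := LinearMap.liftBaseChange (AdjoinRoot f) (LinearMap.id : N →ₗ[S] N) with hμ
  obtain ⟨d, hd⟩ := hc.exists_right_inv
  have e : Rm ⊗[AdjoinRoot f] (AdjoinRoot f ⊗[S] N) ≃ₗ[Rm] Rm ⊗[S] N :=
    TensorProduct.AlgebraTensorModule.cancelBaseChange S (AdjoinRoot f) Rm Rm N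
  have h1 : PdLT Rm (Rm ⊗[AdjoinRoot f] (AdjoinRoot f ⊗[S] N)) k :=
    pdLT_equiv e.symm (pdLT_baseChange Rm N hN)
  refine pdLT_retract (σ.baseChange Rm) (d • (μ.baseChange Rm)) ?_ h1
  ext v
  change d • (μ.baseChange Rm) ((σ.baseChange Rm) (1 ⊗ₜ v)) = 1 ⊗ₜ v
  rw [LinearMap.baseChange_tmul, LinearMap.baseChange_tmul, hσ, ← algebraMap_smul (AdjoinRoot f) c v,
    TensorProduct.tmul_smul, ← algebraMap_smul Rm (algebraMap S (AdjoinRoot f) c),
    ← IsScalarTower.algebraMap_apply, smul_smul, mul_comm d, hd, one_smul]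

/-- the extension property localizes -/
theorem ext_loc {R : Type u} [CommRing R] [IsNoetherianRing R] {M Q : Type u} [AddCommGroup M]
    [Module R M] [AddCommGroup Q] [Module R Q] [Module.Finite R Q] (q : Q →ₗ[R] M)
    (T : Submonoid R)
    (hext : ∀ h : LinearMap.ker q →ₗ[R] M, ∃ t ∈ T, ∃ H : Q →ₗ[R] M,
      ∀ v : LinearMap.ker q, H v = t • h v)
    (Rm : Type u) [CommRing Rm] [Algebra R Rm] [IsLocalization T Rm]
    (h : LinearMap.ker (q.baseChange Rm) →ₗ[Rm] Rm ⊗[R] M) :
    ∃ H : Rm ⊗[R] Q →ₗ[Rm] Rm ⊗[R] M, ∀ v : LinearMap.ker (q.baseChange Rm), H v = h v := by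
  have hflat : Module.Flat R Rm := IsLocalization.flat Rm T
  have hfp : Module.FinitePresentation R (LinearMap.ker q) :=
    Module.finitePresentation_of_finite R _
  have hex : Function.Exact ((LinearMap.ker q).subtype.baseChange Rm) (q.baseChange Rm) :=
    Module.Flat.lTensor_exact Rm (LinearMap.exact_subtype_ker_map q)
  let ι : Rm ⊗[R] (LinearMap.ker q) →ₗ[Rm] LinearMap.ker (q.baseChange Rm) :=
    ((LinearMap.ker q).subtype.baseChange Rm).codRestrict _ (fun t => hex.apply_apply_eq_zero t)
  let j : M →ₗ[R] Rm ⊗[R] M := TensorProduct.mk R Rm M 1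
  have hj : IsLocalizedModule T j := (isLocalizedModule_iff_isBaseChange T Rm j).2
    (TensorProduct.isBaseChange R M Rm)
  let g : LinearMap.ker q →ₗ[R] Rm ⊗[R] M :=
    ((h ∘ₗ ι).restrictScalars R) ∘ₗ (TensorProduct.mk R Rm (LinearMap.ker q) 1)
  obtain ⟨h0, s, hs⟩ := Module.FinitePresentation.exists_lift_of_isLocalizedModule T j g
  obtain ⟨t, ht, H0, hH0⟩ := hext h0
  obtain ⟨d, hd⟩ := (IsLocalization.map_units Rm s).exists_right_inv
  obtain ⟨d', hd'⟩ := (IsLocalization.map_units Rm (⟨t, ht⟩ : T)).exists_right_inv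
  have hg : ∀ v : LinearMap.ker q, (1 : Rm) ⊗ₜ[R] h0 v = (s : R) • h (ι (1 ⊗ₜ v)) := fun v =>
    LinearMap.congr_fun hs v
  refine ⟨(d * d') • (H0.baseChange Rm), ?_⟩
  rintro ⟨v, hv⟩
  obtain ⟨t', rfl⟩ := (hex v).1 hv
  have key : ∀ t' : Rm ⊗[R] (LinearMap.ker q),
      (d * d') • (H0.baseChange Rm) ((LinearMap.ker q).subtype.baseChange Rm t') = h (ι t') := by
    intro t'
    induction t' using TensorProduct.induction_on with
    | zero => simp
    | add x y hx hy => rw [map_add, map_add, smul_add, hx, hy, map_add, map_add]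
    | tmul r v =>
      have h1 : h (ι (r ⊗ₜ v)) = r • h (ι (1 ⊗ₜ v)) := by
        rw [← map_smul, ← map_smul, TensorProduct.smul_tmul', smul_eq_mul, mul_one]
      have h2 : h (ι (1 ⊗ₜ v)) = d • ((1 : Rm) ⊗ₜ[R] h0 v) := by
        rw [hg, ← algebraMap_smul Rm (s : R), smul_smul, mul_comm d, hd, one_smul]
      have h3 : (1 : Rm) ⊗ₜ[R] h0 v = d' • ((1 : Rm) ⊗ₜ[R] H0 v) := by
        rw [hH0 v, TensorProduct.tmul_smul, ← algebraMap_smul Rm t, smul_smul, mul_comm d', hd',
          one_smul]
      have h4 : r ⊗ₜ[R] H0 ((LinearMap.ker q).subtype v) = r • ((1 : Rm) ⊗ₜ[R] H0 v) := by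
        rw [TensorProduct.smul_tmul', smul_eq_mul, mul_one]
        rfl
      rw [h1, h2, h3, LinearMap.baseChange_tmul, LinearMap.baseChange_tmul, h4, smul_smul,
        smul_smul, smul_smul]
      congr 1
      ring
  exact key t'

end Pool.Agent.TH215.NC
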